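import Pool.Agent.P.MP_c134c3_ag.Family

set_option autoImplicit false

namespace Pool.Agent.Results.MP_c134c3_ag.NoQuadraticBound

open Pool.Agent.P.MP_c134c3_ag

/-- Negative answer to Q1 in every positive characteristic: for each `a > 0` there is a smooth
projective surface with a covering family of irreducible pointed curves of multiplicity `m` and
self-intersection `m + 1 < a m ^ 2`. -/
theorem result (p : ℕ) [Fact p.Prime] (k : Type) [Field k] [IsAlgClosed k] [CharP k p]
    (a : ℝ) (ha : 0 < a) :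
    ∃ (N : ℕ) (I : Ideal (MvPolynomial (Fin (N + 1)) k)) (R : Type) (_ : CommRing R)
      (_ : Algebra k R) (𝒥 : Ideal (MvPolynomial (Fin (N + 1)) R)) (x : Fin (N + 1) → R)
      (i : Fin (N + 1)) (m : ℕ),
      IsSmoothSurface I ∧ 1 ≤ m ∧ IsCoveringFamily I R 𝒥 x i m ∧
        (∀ t : R →ₐ[k] k, HasSelfInt I (fiber 𝒥 t) ((m : ℤ) + 1)) ∧
        (m : ℝ) + 1 < a * (m : ℝ) ^ 2 := by
  have hp : 1 < p := (Fact.out : p.Prime).one_lt
  obtain ⟨e, he⟩ := pow_unbounded_of_one_lt (2 / a) (show (1 : ℝ) < p by exact_mod_cast hp)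
  have hq := isFrob_pow k p e
  have h2 := hq.two_le
  refine ⟨3, _, Base k (p ^ (e + 1)), inferInstance, inferInstance, _, _, 0, p ^ (e + 1),
    fermat_smoothSurface hq, by omega, isCoveringFamily hq, fun t => ?_, ?_⟩
  · exact_mod_cast selfInt_fiber hq t
  · have h3 : (p : ℝ) ^ e ≤ ((p ^ (e + 1) : ℕ) : ℝ) := by
      exact_mod_cast Nat.pow_le_pow_right hp.le e.le_succ
    have h4 : (2 : ℝ) ≤ ((p ^ (e + 1) : ℕ) : ℝ) := by exact_mod_cast h2
    have h5 := (div_lt_iff₀ ha).1 (he.trans_le h3)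
    nlinarith

end Pool.Agent.Results.MP_c134c3_ag.NoQuadraticBound
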