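import Pool.Agent.P.MP_c134c3_ag.HMain

set_option autoImplicit false

namespace Pool.Agent.Results.MP_c134c3_ag.NonPowerBound

open Pool.Agent.P.MP_c134c3_ag

/-- For a covering family of irreducible pointed curves of multiplicity `m` on a smooth projective
surface in characteristic `p`, the self-intersection is at least `m (m - Q)`, where `Q` is the
largest power of `p` dividing `m`. -/
theorem result (p : ℕ) [Fact p.Prime] (k : Type) [Field k] [IsAlgClosed k] [CharP k p] (N : ℕ)
    (I : Ideal (MvPolynomial (Fin (N + 1)) k)) (R : Type) [CommRing R] [Algebra k R]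
    (𝒥 : Ideal (MvPolynomial (Fin (N + 1)) R)) (x : Fin (N + 1) → R) (i : Fin (N + 1)) (m : ℕ)
    (c : ℤ) (hI : IsSmoothSurface I) (hm : 1 ≤ m) (hF : IsCoveringFamily I R 𝒥 x i m)
    (hc : ∀ t : R →ₐ[k] k, HasSelfInt I (fiber 𝒥 t) c) :
    (m : ℤ) * ((m : ℤ) - (p : ℤ) ^ padicValNat p m) ≤ c := by
  have h := selfInt_bound p hI hm hF hc
  rw [Nat.cast_mul, Nat.cast_sub (Nat.le_of_dvd hm pow_padicValNat_dvd), Nat.cast_pow] at h
  exact h

end Pool.Agent.Results.MP_c134c3_ag.NonPowerBound
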