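import Pool.Agent.P.MP_c134c3_ag.ShG

set_option autoImplicit false

namespace Pool.Agent.Results.MP_c134c3_ag.SharpBound

open Pool.Agent.P.MP_c134c3_ag

/-- For every power `m = p ^ e`, `e ≥ 1`, of the characteristic there is a smooth projective
rational surface with a covering family of irreducible pointed curves of multiplicity `m` and
self-intersection exactly `m`. -/
theorem result (p : ℕ) [Fact p.Prime] (k : Type) [Field k] [IsAlgClosed k] [CharP k p]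
    (e : ℕ) (he : 1 ≤ e) :
    ∃ (I : Ideal (MvPolynomial (Fin 3 × Fin 3) k)) (R : Type) (_ : CommRing R) (_ : Algebra k R)
      (𝒥 : Ideal (MvPolynomial (Fin 3 × Fin 3) R)) (x : Fin 3 × Fin 3 → R) (i : Fin 3 × Fin 3),
      IsSmoothSurface I ∧
        Nonempty (FractionRing (MvPolynomial (Fin 3 × Fin 3) k ⧸ chartIdeal I i) ≃ₐ[k]
          FractionRing (MvPolynomial (Fin 2) k)) ∧
        IsCoveringFamily I R 𝒥 x i (p ^ e) ∧
        ∀ t : R →ₐ[k] k, HasSelfInt I (fiber 𝒥 t) ((p : ℤ) ^ e) := by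
  obtain ⟨e, rfl⟩ := Nat.exists_eq_add_of_le' he
  have hq := isFrob_pow k p e
  obtain ⟨R, _, _, 𝒥, x, h1, h2, h3⟩ := Sh.main hq
  exact ⟨_, R, _, _, 𝒥, x, (0, 2), h1, Sh.rational hq, h2, fun t => by exact_mod_cast h3 t⟩

/-- The negated form of Q1 follows. -/
theorem negated_form (p : ℕ) [Fact p.Prime] (k : Type) [Field k] [IsAlgClosed k] [CharP k p]
    (a : ℝ) (ha : 0 < a) :
    ∃ (I : Ideal (MvPolynomial (Fin 3 × Fin 3) k)) (R : Type) (_ : CommRing R) (_ : Algebra k R)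
      (𝒥 : Ideal (MvPolynomial (Fin 3 × Fin 3) R)) (x : Fin 3 × Fin 3 → R) (i : Fin 3 × Fin 3)
      (m : ℕ) (c : ℤ), IsSmoothSurface I ∧ 1 ≤ m ∧ IsCoveringFamily I R 𝒥 x i m ∧
        (∀ t : R →ₐ[k] k, HasSelfInt I (fiber 𝒥 t) c) ∧ (c : ℝ) < a * (m : ℝ) ^ 2 := by
  have hp : 1 < p := (Fact.out : p.Prime).one_lt
  have hp' : (1 : ℝ) < p := by exact_mod_cast hp
  obtain ⟨e, he⟩ := pow_unbounded_of_one_lt (1 / a) hp'
  obtain ⟨I, R, _, _, 𝒥, x, i, h1, -, h2, h3⟩ := result p k (e + 1) (Nat.le_add_left 1 e)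
  refine ⟨I, R, _, _, 𝒥, x, i, _, _, h1, Nat.one_le_pow _ _ (by omega), h2, h3, ?_⟩
  have h4 := (div_lt_iff₀ ha).1 (he.trans_le (pow_le_pow_right₀ hp'.le e.le_succ))
  have h5 : (0 : ℝ) < (p : ℝ) ^ (e + 1) := pow_pos (one_pos.trans hp') _
  push_cast
  calc (p : ℝ) ^ (e + 1) = 1 * (p : ℝ) ^ (e + 1) := (one_mul _).symm
    _ < (p : ℝ) ^ (e + 1) * a * (p : ℝ) ^ (e + 1) := mul_lt_mul_of_pos_right h4 h5
    _ = a * ((p : ℝ) ^ (e + 1)) ^ 2 := by ring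

end Pool.Agent.Results.MP_c134c3_ag.SharpBound
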